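import Pool.Agent.Cm.Middle
import Pool.Agent.Cm.Proper

/-!
# MP_984acc_gt: the `ℓ²`-Betti numbers of closed nonpositively curved cubical manifolds and orbifolds

Let the group `Γ` act on a `CAT(0)` cube complex, given by its one-skeleton, the median graph `M`, with finitely many orbits
of vertices and finite stabilizers, and let the link of every vertex be a flag homology sphere of dimension `n - 1`: the cube
complex is a homology manifold of dimension `n`.  Then all `ℓ²`-Betti numbers of `Γ` are known: they are zero in the degrees
different from `n / 2`, and for `n = 2 * m` the number in degree `m` is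

  `(-1) ^ m * ∑_v (1 / |Γ_v|) ∑_σ (-1/2) ^ |σ|`

where `v` runs over representatives of the orbits of vertices and `σ` over the simplices of the link of `v`, the empty one
included; this is `(-1) ^ m` times the orbifold Euler characteristic.  In particular this holds for the fundamental groups of
all closed nonpositively curved cubical manifolds.

* `davisOkun` : the right-angled Coxeter groups of all flag homology spheres (they act simply transitively on the vertices of
  their Davis complexes);
* `charneyDavis` : the inequality of Charney and Davis for all flag homology spheres of dimension `2 * m - 1`;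
* `hopf` : the sign of the Euler characteristic of the groups which have a finite resolution of finite length.

The proof compares the action with the mirrored groups of the vertices (Morse inequalities); the numbers of the right-angled
Coxeter groups of flag homology spheres are computed with Poincare duality and Steenrod squares over skew fields of
characteristic two.
-/

set_option autoImplicit false

namespace Pool.Agent.Results.MP_984acc_gt.CubicalManifolds

open Singer CubeComplex Cm.Mid

/-- `Γ` acts on the `CAT(0)` cube complex with the one-skeleton `M`, the vertices `x j` are representatives of the orbits of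
vertices, the stabilizers of the vertices are finite, and the links of the vertices are flag homology spheres of dimension
`n - 1` -/
structure ManifoldAction (n : ℕ) (Γ : Type) {X J : Type} [Group Γ] [MulAction Γ X] (M : SimpleGraph X) (x : J → X) :
    Prop where
  median : IsMedian M
  act : ∀ (g : Γ) (y z : X), M.Adj y z → M.Adj (g • y) (g • z)
  orbits : ∀ y : X, ∃! j : J, ∃ g : Γ, g • x j = y
  proper : ∀ y : X, Finite (MulAction.stabilizer Γ y)
  sphere : ∀ y : X, SingerCube.HSphere n (link M y)

/-- the action is a cubical action -/
theorem cubicalAction {n : ℕ} {Γ X J : Type} [Group Γ] [MulAction Γ X] [Finite J] {M : SimpleGraph X} {x : J → X}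
    (h : ManifoldAction n Γ M x) : CubicalAction Γ M :=
  CubicalAction.of_proper h.median (fun y => Cm.CD.finite_of_hsphere (h.sphere y)) h.act h.proper
    (Set.finite_range x) fun y => by
      obtain ⟨j, ⟨g, hg⟩, -⟩ := h.orbits y
      exact ⟨x j, ⟨j, rfl⟩, g, hg⟩

/-- **the theorem**: all `ℓ²`-Betti numbers of the groups which act properly and cocompactly on `CAT(0)` cubical homology
manifolds of dimension `n`; they are computed with an arbitrary resolution `R` of `ℤ` by finitely generated free modules -/
theorem result {n : ℕ} {Γ X J : Type} [Group Γ] [MulAction Γ X] [Fintype J] (M : SimpleGraph X) (x : J → X)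
    (h : ManifoldAction n Γ M x) (R : FinRes Γ) (i : ℕ) :
    R.betti i = if 2 * i = n then
      (-1) ^ i * ∑ j, cliqueSum (link M (x j)) / Nat.card (MulAction.stabilizer Γ (x j)) else 0 := by
  split_ifs with hi
  · subst hi
    exact (middle (cubicalAction h) x h.orbits (fun j => h.proper _) (fun j => h.sphere _) R).1
  · exact Cm.betti_sphere h.median h.act h.proper (Set.finite_range x) (fun y => by
      obtain ⟨j, ⟨g, hg⟩, -⟩ := h.orbits y
      exact ⟨x j, ⟨j, rfl⟩, g, hg⟩) h.sphere R hi

/-- **the right-angled Coxeter groups of all flag homology spheres** -/
theorem davisOkun {n : ℕ} {V : Type} (L : SimpleGraph V) (hL : SingerCube.HSphere n L) (R : FinRes (RACG L)) (i : ℕ) :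
    R.betti i = if 2 * i = n then (-1) ^ i * cliqueSum L else 0 := by
  classical
  have hV : Finite V := Cm.CD.finite_of_hsphere hL
  have : Fintype V := Fintype.ofFinite V
  rw [← Cm.B.h_eq_betti R.toRes R, h_racg]
  split_ifs with hi
  · subst hi
    exact bet_middle hL
  · exact Npc.bet_of_hsphere hL hi

/-- **the inequality of Charney and Davis** for all flag homology spheres of dimension `2 * m - 1` -/
theorem charneyDavis {m : ℕ} {V : Type} (L : SimpleGraph V) (hL : SingerCube.HSphere (2 * m) L) :
    0 ≤ (-1 : ℝ) ^ m * cliqueSum L := by
  classical
  have hV : Finite V := Cm.CD.finite_of_hsphere hL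
  have : Fintype V := Fintype.ofFinite V
  rw [cliqueSum_eq L]
  exact Cm.CD.charneyDavis L hL

/-- the sign of the Euler characteristic, if there is a resolution of finite length by finitely generated free modules -/
theorem hopf {m : ℕ} {Γ X J : Type} [Group Γ] [MulAction Γ X] [Fintype J] (M : SimpleGraph X) (x : J → X)
    (h : ManifoldAction (2 * m) Γ M x) (R : FinRes Γ) {N : ℕ} (hN : ∀ i, N < i → IsEmpty (R.ι i)) :
    0 ≤ (-1 : ℝ) ^ m * ∑ k ∈ Finset.range (N + 1), (-1 : ℝ) ^ k * Fintype.card (R.ι k) :=
  Cm.B.hopf R hN fun i hi => by
    rw [result M x h R i, if_neg (by omega)]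

end Pool.Agent.Results.MP_984acc_gt.CubicalManifolds
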