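import Pool.Agent.Cm.Bet
import Pool.Agent.Cm.Special
import Pool.Agent.SQ.V.Ex
import Pool.Agent.SQ.A.Final

/-!
# MP_984acc_gt: the Singer conjecture for groups with a hierarchy of mirrored groups

Let `Γ` act on a `CAT(0)` cube complex, given by its one-skeleton, the median graph `M`, with finitely many orbits of cubes and
stabilizers of type `FP_∞`; the complex may be locally infinite, the action need not be proper; for example `Γ` acts on a tree.
The mirrored group `MirGroup Γ M x` of a vertex `x` is the semidirect product of the right-angled Coxeter group of the link of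
`x` with the stabilizer of `x`: if `Γ` is the fundamental group of a closed manifold which is cut along hypersurfaces, it is the
group of the orbifold given by the piece at `x` with its boundary mirrored.

The class `Sing n` is the least class of groups which
* contains the Poincare duality groups of dimension `n` with a bi-orderable normal subgroup and an amenable quotient;
* is closed under the passage to overgroups and subgroups of finite index;
* contains `Γ` as above if it contains the mirrored groups of all vertices.

The theorem: all `ℓ²`-Betti numbers of the groups in `Sing n` vanish outside of the degree `n / 2`.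

The class contains the groups commensurable with the right-angled Coxeter groups of the flag homology spheres of dimension
`n - 1` (`cox`), and the groups which act on trees with mirrored groups in the class (`tree`).  For example the fundamental
groups of the closed Haken manifolds of dimension `n` are in `Sing n`: the manifold is cut along a hypersurface and the boundary
is mirrored; the next hypersurface of the hierarchy becomes a closed hypersurface in this orbifold; at the end of the hierarchy
there are cells with mirrored facets.  The hierarchy may stop at any stage where the orbifold groups are virtually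
(bi-orderable)-by-amenable, for example virtually special.
-/

set_option autoImplicit false

namespace Pool.Agent.Results.MP_984acc_gt.MirrorHierarchies

open Singer CubeComplex
open SQ.V (BiOrderable Amenable)

/-- The class of groups.  `pd`: it contains the Poincare duality groups `Γ` of dimension `n` with a normal subgroup `N` which has
a bi-invariant linear order such that `Γ / N` is amenable.  `supergroup`, `subgroup`: it contains `Γ` if it contains a group
isomorphic to a subgroup of finite index of `Γ`, or a group of type `FP_∞` which contains `Γ` as a subgroup of finite index.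
`mirror`: let `Γ` act on a `CAT(0)` cube complex with the one-skeleton `M`, with finitely many orbits of cubes and stabilizers
of type `FP_∞`; if the mirrored groups of the vertices in a finite set `F` which meets all orbits are in the class, then so is
`Γ`. -/
inductive Sing (n : ℕ) : ∀ (Γ : Type) [Group Γ], Prop
  | pd {Γ : Type} [Group Γ] (N : Subgroup Γ) [N.Normal] : IsPD n Γ → BiOrderable N → Amenable (Γ ⧸ N) → Sing n Γ
  | supergroup {Γ H : Type} [Group Γ] [Group H] (j : H →* Γ) : Function.Injective j → j.range.FiniteIndex →
      Sing n H → Sing n Γ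
  | subgroup {Γ H : Type} [Group Γ] [Group H] (j : Γ →* H) : Function.Injective j → j.range.FiniteIndex →
      Nonempty (FinRes H) → Sing n H → Sing n Γ
  | mirror {Γ X : Type} [Group Γ] [MulAction Γ X] (M : SimpleGraph X) (F : Finset X) : CubicalAction Γ M →
      (∀ x, ∃ y ∈ F, ∃ g : Γ, g • y = x) → (∀ y ∈ F, Sing n (MirGroup Γ M y)) → Sing n Γ

/-- isomorphic groups -/
theorem Sing.iso {n : ℕ} {Γ H : Type} [Group Γ] [Group H] (e : H ≃* Γ) (h : Sing n H) : Sing n Γ := by
  refine Sing.supergroup e.toMonoidHom e.injective ?_ h
  rw [show e.toMonoidHom.range = ⊤ from MonoidHom.range_eq_top.2 e.surjective]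
  infer_instance

/-- the `ℓ²`-homology of the groups of the class, computed with an arbitrary resolution -/
theorem h_eq {n : ℕ} {Γ : Type} [Group Γ] (h : Sing n Γ) {i : ℕ} (hi : 2 * i ≠ n) (S : Res.{0} Γ) :
    S.toPreRes.toHC.h i = 0 := by
  induction h with
  | @pd Γ _ N _ hPD hN hA =>
    obtain ⟨R⟩ := SQ.exists_finRes_of_isPD hPD
    rw [Cm.B.h_eq_betti S R]
    have hP : SQ.U.P N := (SQ.V.cls_of (SQ.V.InClass.of_biOrderable hN)).p SQ.U.stmtCoef
    have hL : ∀ {m : ℕ}, IsPD m Γ → SQ.A.LocPD m N := fun h => SQ.A.locPD_of_emb h N.subtype N.subtype_injective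
    rcases lt_or_gt_of_ne hi with h1 | h1
    · rw [Cm.B.betti_dual R hPD (show i + (n - i) = n by omega)]
      exact (R.betti_eq_zero_iff _).2 (SQ.A.vanE_amen N (hL hPD) hP hA R (n - i) (by omega))
    · exact (R.betti_eq_zero_iff _).2 (SQ.A.vanE_amen N (hL hPD) hP hA R i h1)
  | supergroup j hj hf _ ih =>
    obtain ⟨T, hT⟩ := Cm.B.exists_trv_index j hj hf
    have h1 := ih (T.res S)
    rw [T.h_res S i, hT] at h1
    have h2 : (j.range.index : ℝ) ≠ 0 := by
      have h3 : j.range.index ≠ 0 := Subgroup.FiniteIndex.index_ne_zero
      exact_mod_cast h3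
    rcases mul_eq_zero.1 h1 with h3 | h3
    · exact absurd h3 h2
    · exact h3
  | subgroup j hj hf R _ ih =>
    obtain ⟨R⟩ := R
    obtain ⟨T, hT⟩ := Cm.B.exists_trv_index j hj hf
    have h1 := ih R.toRes
    rw [Res.h_eq S (T.res R.toRes), T.h_res R.toRes i, h1, mul_zero]
  | mirror M F hM hF _ ih =>
    obtain ⟨I, SM, h1⟩ := Cm.cm_le hM (fun y : F => (y : _)) fun x => by
      obtain ⟨y, hy, g, hg⟩ := hF x
      exact ⟨⟨y, hy⟩, g, hg⟩
    have h2 : ∑ j : I, (SM j).toHC.h i = 0 := Finset.sum_eq_zero fun j _ => ih j.1.1 j.1.2 (SM j)
    have h3 := h1 S i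
    rw [h2] at h3
    exact le_antisymm h3 (HC.h_nonneg _ _)

/-- **the theorem**: the `ℓ²`-Betti numbers of the groups in the class vanish outside of the degree `n / 2`; they are computed
with an arbitrary resolution `R` of `ℤ` by finitely generated free modules -/
theorem result {n : ℕ} {Γ : Type} [Group Γ] (h : Sing n Γ) (R : FinRes Γ) (i : ℕ) (hi : 2 * i ≠ n) : R.betti i = 0 := by
  rw [← Cm.B.h_eq_betti R.toRes R]
  exact h_eq h hi _

/-- trivial groups are amenable -/
theorem amenable_of_trivial {Q : Type} [Group Q] (h : ∀ q : Q, q = 1) : Amenable Q := SQ.V.of_foe (SQ.T5.foe_triv h)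

/-- bi-orderable Poincare duality groups -/
theorem Sing.of_biOrderable {n : ℕ} {Γ : Type} [Group Γ] (hn : IsPD n Γ) (h : BiOrderable Γ) : Sing n Γ := by
  refine Sing.pd (⊤ : Subgroup Γ) hn ?_ (amenable_of_trivial fun q => ?_)
  · obtain ⟨l, h1, h2⟩ := h
    let _ : LinearOrder (⊤ : Subgroup Γ) := LinearOrder.lift' (fun x : (⊤ : Subgroup Γ) => (x : Γ)) Subtype.val_injective
    exact ⟨inferInstance, fun a b d hab => h1 _ _ _ hab, fun a b d hab => h2 _ _ _ hab⟩
  · obtain ⟨x, rfl⟩ := QuotientGroup.mk_surjective q
    exact (QuotientGroup.eq_one_iff x).2 trivial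

/-- the subgroups of the commutator subgroups of right-angled Coxeter groups are bi-orderable -/
theorem biOrderable_of_commutator {V : Type} [Fintype V] (G : SimpleGraph V) {K : Type} [Group K]
    (φ : K →* commutator (RACG G)) (hφ : Function.Injective φ) : BiOrderable K := by
  refine SQ.BO.Cor.biOrd_of_resUT fun h hh => ?_
  obtain ⟨m, π, h1, h2, -, h3⟩ := SQ.T3.resUT_of_classT (SQ.T2.classT_of_racg G φ hφ) h (by
    rwa [Subgroup.mem_bot])
  exact ⟨m, π, h1, h2, h3⟩

/-- the groups commensurable with the right-angled Coxeter group of a flag homology sphere -/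
theorem cox_aux {n : ℕ} {V : Type} (L : SimpleGraph V) (hL : SingerCube.HSphere n L) {K Γ : Type} [Group K] [Group Γ]
    (k : K →* RACG L) (j : K →* Γ) (hk : Function.Injective k) (hkf : k.range.FiniteIndex)
    (hj : Function.Injective j) (hjf : j.range.FiniteIndex) : Sing n Γ := by
  classical
  have hV : Finite V := by
    cases n with
    | zero =>
      have h0 : IsEmpty V := hL
      infer_instance
    | succ n => exact hL.1
  have : Fintype V := Fintype.ofFinite V
  have hkf' : k.range.FiniteIndex := hkf
  have hjf' : j.range.FiniteIndex := hjf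
  have hf0' : (ker2 L).FiniteIndex := finiteIndex_ker2 L
  have hinv0 : NoInv (ker2 L) := noInv_ker2 L
  -- the subgroup `ker2 ∩ k(K)`
  let H : Subgroup (RACG L) := ker2 L ⊓ k.range
  have hHf : H.FiniteIndex := ⟨Subgroup.index_inf_ne_zero hf0'.index_ne_zero hkf'.index_ne_zero⟩
  have hHi : NoInv H := fun h hh => hinv0 h hh.1
  have hPD : IsPD n H := isPD_of_goodQ (SingerCube.goodQ_of_hsphere hL) hHf hHi
  have hle : H ≤ commutator (RACG L) := inf_le_left.trans (SQ.FinSt.ker2_le_commutator L)
  have hbo : BiOrderable H := biOrderable_of_commutator L (Subgroup.inclusion hle) (Subgroup.inclusion_injective hle)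
  let e : K ≃* k.range := MonoidHom.ofInjective hk
  let f : H →* Γ := (j.comp e.symm.toMonoidHom).comp (Subgroup.inclusion inf_le_right)
  have hf : Function.Injective f := by
    refine hj.comp (e.symm.injective.comp ?_)
    exact Subgroup.inclusion_injective inf_le_right
  have hrange : f.range = ((ker2 L).comap k).map j := by
    ext x
    constructor
    · rintro ⟨⟨y, hy1, hy2⟩, rfl⟩
      obtain ⟨z, rfl⟩ := hy2
      refine ⟨z, hy1, ?_⟩
      show j z = j (e.symm ⟨k z, _⟩)
      congr 1
      rw [MulEquiv.eq_symm_apply]
      rfl
    · rintro ⟨z, hz, rfl⟩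
      refine ⟨⟨k z, hz, ⟨z, rfl⟩⟩, ?_⟩
      show j (e.symm ⟨k z, _⟩) = j z
      congr 1
      rw [MulEquiv.symm_apply_eq]
      rfl
  have hfi : f.range.FiniteIndex := by
    rw [hrange]
    constructor
    rw [Subgroup.index_map_of_injective _ hj]
    have h1 : ((ker2 L).comap k).index ≠ 0 := by
      rw [Subgroup.index_comap]
      exact fun h0 => hf0'.index_ne_zero (Subgroup.index_eq_zero_of_relIndex_eq_zero h0)
    exact mul_ne_zero h1 hjf'.index_ne_zero
  exact Sing.supergroup f hf hfi (Sing.of_biOrderable hPD hbo)

/-- **Coxeter groups**: the class contains the groups commensurable with the right-angled Coxeter group `Cox L` of a flag homology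
sphere `L` of dimension `n - 1` (`k` and `j` are isomorphisms of `K` with subgroups of finite index) -/
theorem cox {n : ℕ} {V : Type} (L : SimpleGraph V) (hL : SingerCube.HSphere n L) {K Γ : Type} [Group K] [Group Γ]
    (k : K →* SingerPD.Cox L) (j : K →* Γ) (hk : Function.Injective k) (hkf : k.range.FiniteIndex)
    (hj : Function.Injective j) (hjf : j.range.FiniteIndex) : Sing n Γ := cox_aux L hL k j hk hkf hj hjf

/-- **trees**: `Γ` acts on a tree `T` without inversions, with finitely many orbits of vertices and edges, the stabilizers of the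
vertices and edges are of type `FP_∞`, and the mirrored groups of the vertices in a finite set which meets all orbits, the
semidirect products of the free product of groups of order two indexed by the neighbours with the stabilizer, are in the class -/
theorem tree {n : ℕ} {Γ V : Type} [Group Γ] [MulAction Γ V] (T : SimpleGraph V) (F K : Finset V) (hT : T.IsTree)
    (act : ∀ (g : Γ) (v w : V), T.Adj v w → T.Adj (g • v) (g • w))
    (inv : ∀ (g : Γ) (v w : V), T.Adj v w → g • v = w → g • w ≠ v) (hF : ∀ v, ∃ x ∈ F, ∃ g : Γ, g • x = v)
    (hK : ∀ v w, T.Adj v w → ∃ g : Γ, g • v ∈ K ∧ g • w ∈ K)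
    (hv : ∀ v : V, Nonempty (FinRes (MulAction.stabilizer Γ v)))
    (he : ∀ v w, T.Adj v w → Nonempty (FinRes (MulAction.stabilizer Γ v ⊓ MulAction.stabilizer Γ w : Subgroup Γ)))
    (h : ∀ x ∈ F, Sing n (MirrorGroup Γ T x)) : Sing n Γ :=
  Sing.mirror T F (CubicalAction.of_tree hT act inv hF ⟨K, hK⟩ hv he) hF fun x hx => (h x hx).iso (Cm.treeEquiv hT x)

end Pool.Agent.Results.MP_984acc_gt.MirrorHierarchies
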