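import Pool.Agent.SQ.V.Ex
import Pool.Agent.SQ.A.Final

/-!
# MP_984acc_gt: the Singer conjecture for extensions of the groups in `InClass` by amenable groups

`InClass`: the smallest class of groups which contains the trivial groups and is closed under
* extensions: `G` has a normal subgroup `N` in the class, and `G / N` is bi-orderable, or amenable and locally indicable;
* residually: every nontrivial element of `G` has a nontrivial image under a homomorphism of `G` to a group in the class;
* directed unions: all finitely generated subgroups of `G` are in the class.

The theorem: let `Γ` be a group with a subgroup `H` of finite index, and let `N` be a normal subgroup of `H` in the class such that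
`H / N` is an arbitrary amenable group (Foelner's condition).
1. If `Γ` or `H` is a Poincare duality group of dimension `n` then the `ℓ²`-Betti numbers of `Γ` vanish in all degrees `i ≠ n / 2`.
2. If the finitely generated subgroups of `N` are isomorphic to subgroups, of any index, of Poincare duality groups of dimension
   `n` then the `ℓ²`-Betti numbers of `Γ` vanish in all degrees `i > n / 2`, and, if `Γ` or `H` is a Poincare duality group of
   dimension `m`, in all degrees `i < m - n / 2`.  For `n < m` they vanish in all degrees.

The case `N = H` is the theorem for the groups which are virtually in the class (`tower`); amenable groups are the case `N = 1`.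
Nothing is assumed on the finiteness properties of `N`, and `H / N` may have torsion, so that there is no skew field for the group
`H`.

Proof.  For `N` there is a ring `R` with the properties of a discrete valuation ring with prime 2, which contains the group in its
units, such that for every subgroup the cosets are independent over its division closure in the skew field `D = R / 2 R`.  The
automorphisms of `N` act on `R` and on `D`, by the uniqueness of `R` (a 2-adic form of a theorem of Hughes).  By the double coset
formula, Poincare duality, the squaring lemma and Shapiro's lemma the homology of `N` with coefficients in `D`, which is the homology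
of `H` with coefficients in the module induced from `D`, vanishes above the degree `n / 2`.  For a complex of free modules over the group ring of `H` let `a(F)` be the dimension over
`D` of the cycles with support in a finite set `F` of cosets of `N`.  The translations by `H / N` act semilinearly on the induced
module, and by an inequality of Shearer's type for the ranks over `D` the exactness of the complex implies that the number of
cycles and of boundaries in a Foelner set differ by `o(|F|)`.  The von Neumann dimension of the space of `ℓ²`-cycles of `H` is at
most `a(F) / |F| + o(1)`, by the comparison of the dimensions for the group `N`.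
-/

set_option autoImplicit false

namespace Pool.Agent.Results.MP_984acc_gt.SingerAmenable

open Singer SQ.V

/-- the class is closed under subgroups -/
theorem subgroup {G K : Type} [Group G] [Group K] (h : InClass G) (f : K →* G) (hf : Function.Injective f) : InClass K :=
  h.subgroup K f hf

/-- bi-orderable groups are in the class -/
theorem of_biOrderable {G : Type} [Group G] (h : BiOrderable G) : InClass G := InClass.of_biOrderable h

/-- the groups which are residually unitriangular over the integers (for finitely generated groups: residually torsion-free
nilpotent) are in the class -/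
theorem unitriangular {G : Type} [Group G] (h : ∀ g : G, g ≠ 1 → ∃ (m : ℕ) (π : G →* (Matrix (Fin m) (Fin m) ℤ)ˣ),
    (∀ (k : G) (i j : Fin m), j < i → (π k).val i j = 0) ∧ (∀ (k : G) (i : Fin m), (π k).val i i = 1) ∧ π g ≠ 1) :
    InClass G :=
  InClass.of_biOrderable (SQ.BO.Cor.biOrd_of_resUT h)

/-- the groups which embed in the commutator subgroup of a right-angled Coxeter group, for example, up to finite index, the
fundamental groups of the compact special cube complexes, are in the class -/
theorem of_commutator {V K : Type} [Fintype V] [Group K] (G : SimpleGraph V) (φ : K →* commutator (RACG G))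
    (hφ : Function.Injective φ) : InClass K := InClass.of_commutator G φ hφ

/-- trivial groups are amenable -/
theorem amenable_of_trivial {Q : Type} [Group Q] (h : ∀ q : Q, q = 1) : Amenable Q := of_foe (SQ.T5.foe_triv h)

/-- **the theorem**: `Γ` has a subgroup `H` of finite index, and `H` has a normal subgroup `N` in the class `InClass` such that
`H / N` is amenable.
1. If `Γ` or `H` is a Poincare duality group of dimension `n` then the `ℓ²`-Betti numbers of `Γ` are zero in all degrees different
   from `n / 2`.
2. Suppose that the finitely generated subgroups of `N` are isomorphic to subgroups of Poincare duality groups of dimension `n`.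
   Then the `ℓ²`-Betti numbers of `Γ` are zero above the degree `n / 2`; if `Γ` or `H` is a Poincare duality group of dimension
   `m` then they are zero below the degree `m - n / 2`, hence in all degrees if `n < m`.
3. Poincare duality groups have resolutions as in the statement. -/
theorem result {Γ : Type} [Group Γ] (H : Subgroup Γ) [H.FiniteIndex] (N : Subgroup H) [N.Normal] (hN : InClass N)
    (hA : Amenable (H ⧸ N)) (n : ℕ) :
    (IsPD n Γ ∨ IsPD n H → ∀ (R : FinRes Γ) (i : ℕ), 2 * i ≠ n → R.betti i = 0) ∧
      ((∀ S : Subgroup N, S.FG → ∃ (P : Type) (_ : Group P) (f : S →* P), IsPD n P ∧ Function.Injective f) →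
        (∀ (R : FinRes Γ) (i : ℕ), n < 2 * i → R.betti i = 0) ∧
          ∀ m : ℕ, IsPD m Γ ∨ IsPD m H → ∀ (R : FinRes Γ) (i : ℕ), 2 * i + n < 2 * m → R.betti i = 0) ∧
      (IsPD n Γ → Nonempty (FinRes Γ)) := by
  have hN' : SQ.U.P N := (cls_of hN).p SQ.U.stmtCoef
  refine ⟨fun h R i hi => ?_, fun hP => ⟨fun R i hi => ?_, fun m hm R i hi => ?_⟩, SQ.exists_finRes_of_isPD⟩
  · exact (R.betti_eq_zero_iff i).2 (SQ.A.vanE_virtual_pd H N hN' hA h R i hi)
  · exact (R.betti_eq_zero_iff i).2 (SQ.A.vanE_virtual H N hN' hA hP R i hi)
  · exact (R.betti_eq_zero_iff i).2 (SQ.A.vanE_virtual_low H N hN' hA hP hm R i hi)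

/-- `ℓ²`-acyclic Poincare duality groups -/
theorem acyclic {n m : ℕ} (hnm : n < m) {Γ : Type} [Group Γ] (H : Subgroup Γ) [H.FiniteIndex] (N : Subgroup H) [N.Normal]
    (hN : InClass N) (hA : Amenable (H ⧸ N))
    (hP : ∀ S : Subgroup N, S.FG → ∃ (P : Type) (_ : Group P) (f : S →* P), IsPD n P ∧ Function.Injective f)
    (hm : IsPD m Γ ∨ IsPD m H) (R : FinRes Γ) (i : ℕ) : R.betti i = 0 := by
  obtain ⟨-, h, -⟩ := result H N hN hA n
  rcases lt_or_ge n (2 * i) with h1 | h1
  · exact (h hP).1 R i h1
  · exact (h hP).2 m hm R i (by omega)

/-- the case `N = H`: the groups which are virtually in the class -/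
theorem tower {n : ℕ} {Γ P : Type} [Group Γ] [Group P] (hP : IsPD n P) (H : Subgroup Γ) [H.FiniteIndex]
    (hH : InClass H) (f : H →* P) (hf : Function.Injective f) :
    (∀ (R : FinRes Γ) (i : ℕ), n < 2 * i → R.betti i = 0) ∧
      (IsPD n Γ ∨ IsPD n H → ∀ (R : FinRes Γ) (i : ℕ), 2 * i ≠ n → R.betti i = 0) ∧
      (IsPD n Γ → Nonempty (FinRes Γ)) := by
  have hA : Amenable (H ⧸ (⊤ : Subgroup H)) := amenable_of_trivial fun q => by
    obtain ⟨x, rfl⟩ := QuotientGroup.mk_surjective q
    exact (QuotientGroup.eq_one_iff x).2 trivial
  obtain ⟨h1, h2, h3⟩ := result H (⊤ : Subgroup H)
    (hH.subgroup _ (⊤ : Subgroup H).subtype (Subgroup.subtype_injective _)) hA n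
  exact ⟨(h2 (SQ.A.locPD_of_emb hP (f.comp (⊤ : Subgroup H).subtype) (hf.comp (Subgroup.subtype_injective _)))).1, h1, h3⟩

end Pool.Agent.Results.MP_984acc_gt.SingerAmenable
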