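import Pool.Agent.RTK.Main
import Pool.Agent.RTK.Trick
import Pool.Agent.Cm.Bet
import Pool.Agent.Cm.Strong

/-!
# MP_984acc_gt: groups acting on cube complexes with good edges, the vertex groups are arbitrary

Let the group `Γ` act on a `CAT(0)` cube complex, given by its one-skeleton, the median graph `M`, with finitely many orbits
of cubes and stabilizers of type `FP_∞`.  Let `x j` be representatives of the orbits of vertices.  The mirrored group
`MirGroup Γ M v` of a vertex `v` is the semidirect product of the right-angled Coxeter group of the link of `v` with the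
stabilizer of `v`.

For every `j` let `A j` be a set of edges at the vertex `x j` (the kept edges) such that the edges which are not in `A j`
are good (`GoodEdge`): only finitely many elements fix both ends of the edge from `x j` to `v`, no element of the stabilizer
of `x j` maps `v` to a vertex which spans a square with it, and the link of the edge is a full subcomplex of a flag homology
sphere of dimension `m - 1`.  Let `P j = part Γ M (x j) (A j)` be the subgroup of the mirrored group of `x j` generated by
the stabilizer of `x j` and the reflections of the edges in `A j`.  Then for the `ℓ²`-Betti numbers in the degrees `i` with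
`2 * i > m + 2`

* `b_i(M_j) = b_i(P j)` for the mirrored group `M_j` of `x j`;
* `b_i(Γ) + r_i + r_(i + 1) = ∑ j, b_i(P j)` with numbers `r_k ≥ 0`.

If `A j` is empty then `P j` is the stabilizer of `x j`, an arbitrary group.  If `A j` is the set of all edges for every `j`
then nothing is assumed on the edges, `P j = M_j`, and the equation holds in all degrees with `r_0 = 0`: these are the Morse
inequalities for the mirrored groups (`morse`).

* `singer` : the vanishing for Poincare duality groups;
* `trick`, `trick_singer` : a right-angled Coxeter group of infinite rank and a group `B` of automorphisms of its graph, in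
  particular the groups of Davis' reflection trick; the numbers are those of `B`.
-/

set_option autoImplicit false

namespace Pool.Agent.Results.MP_984acc_gt.VertexGroups

open Singer CubeComplex RTK

/-- **the main theorem** -/
theorem result {Γ X J : Type} [Group Γ] [MulAction Γ X] [Fintype J] (M : SimpleGraph X) (hM : CubicalAction Γ M)
    (x : J → X) (hx : ∀ v, ∃! j : J, ∃ g : Γ, g • x j = v) (m : ℕ) (A : ∀ j, Set (M.neighborSet (x j)))
    (hA : ∀ j, ∀ v, v ∉ A j → GoodEdge m Γ M (x j) v) (R : FinRes Γ) (RP : ∀ j, FinRes (part Γ M (x j) (A j))) :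
    (∃ r : ℕ → ℝ, r 0 = 0 ∧ (∀ i, 0 ≤ r i) ∧ ∀ i, (m + 2 < 2 * i ∨ ∀ j, A j = Set.univ) →
      R.betti i + r i + r (i + 1) = ∑ j, (RP j).betti i) ∧
    ∀ j (RM : FinRes (MirGroup Γ M (x j))) (i : ℕ), (m + 2 < 2 * i ∨ A j = Set.univ) → RM.betti i = (RP j).betti i :=
  ⟨main M hM x hx m A hA R RP, fun j RM _ hi => betti_mir hM (x j) (A j) (hA j) hi (RP j) RM⟩

/-- the upper bound, and equality if the numbers of the groups `P j` in the adjacent degrees vanish -/
theorem bound {Γ X J : Type} [Group Γ] [MulAction Γ X] [Fintype J] (M : SimpleGraph X) (hM : CubicalAction Γ M)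
    (x : J → X) (hx : ∀ v, ∃! j : J, ∃ g : Γ, g • x j = v) (m : ℕ) (A : ∀ j, Set (M.neighborSet (x j)))
    (hA : ∀ j, ∀ v, v ∉ A j → GoodEdge m Γ M (x j) v) (R : FinRes Γ) (RP : ∀ j, FinRes (part Γ M (x j) (A j)))
    {i : ℕ} (hi : m + 2 < 2 * i) : R.betti i ≤ ∑ j, (RP j).betti i ∧
      (m + 4 < 2 * i → (∀ j k, (k + 1 = i ∨ k = i + 1) → (RP j).betti k = 0) → R.betti i = ∑ j, (RP j).betti i) := by
  obtain ⟨r, -, h1, h2⟩ := (result M hM x hx m A hA R RP).1
  have h3 := h2 i (Or.inl hi)
  have h4 := h1 i
  have h5 := h1 (i + 1)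
  refine ⟨by linarith, fun h6 h7 => ?_⟩
  have h8 : ∀ k, (k + 1 = i ∨ k = i + 1) → m + 2 < 2 * k → r k = 0 ∧ r (k + 1) = 0 := by
    intro k hk hk'
    have h9 := h2 k (Or.inl hk')
    rw [Finset.sum_eq_zero fun j _ => h7 j k hk] at h9
    have h10 := h1 k
    have h11 := h1 (k + 1)
    have h12 := R.betti_nonneg k
    constructor <;> linarith
  obtain ⟨k, rfl⟩ : ∃ k, i = k + 1 := ⟨i - 1, by omega⟩
  have h9 := (h8 k (Or.inl rfl) (by omega)).2
  have h10 := (h8 (k + 1 + 1) (Or.inr rfl) (by omega)).1
  linarith

/-- **the Singer conjecture**: a Poincare duality group of dimension `n` with an action as above, `n = m + 1`, such that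
the numbers of the groups `P j` vanish in the degrees `i`, `n / 2 < i ≤ n`; all degrees for even `n`, for odd `n` the two
middle degrees are left out -/
theorem singer {n : ℕ} {Γ X J : Type} [Group Γ] [MulAction Γ X] [Fintype J] (M : SimpleGraph X)
    (hM : CubicalAction Γ M) (x : J → X) (hx : ∀ v, ∃! j : J, ∃ g : Γ, g • x j = v) (m : ℕ) (hm : m + 1 = n)
    (A : ∀ j, Set (M.neighborSet (x j))) (hA : ∀ j, ∀ v, v ∉ A j → GoodEdge m Γ M (x j) v) (hn : IsPD n Γ)
    (RP : ∀ j, FinRes (part Γ M (x j) (A j))) (h : ∀ j i, n < 2 * i → i ≤ n → (RP j).betti i = 0) (R : FinRes Γ) (i : ℕ)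
    (h0 : 2 * i ≠ n) (h1 : 2 * i ≠ n + 1) (h2 : 2 * i + 1 ≠ n) : R.betti i = 0 := by
  have h3 : ∀ i, n + 1 < 2 * i → R.betti i = 0 := by
    intro i hi
    refine le_antisymm ?_ (R.betti_nonneg i)
    rcases le_or_gt i n with h2 | h2
    · have h3 := (bound M hM x hx m A hA R RP (i := i) (by omega)).1
      rwa [Finset.sum_eq_zero fun j _ => h j i (by omega) h2] at h3
    · exact (Cm.B.Bet.top hn h2).betti_le R
  rcases lt_or_gt_of_ne h0 with h4 | h4
  · rcases le_or_gt i n with h5 | h5
    · rw [Cm.B.betti_dual R hn (show i + (n - i) = n by omega)]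
      exact h3 (n - i) (by omega)
    · omega
  · exact h3 i (by omega)

/-- **the Morse inequalities for the mirrored groups**: the case that all edges are kept, with alternating sums -/
theorem morse {Γ X J : Type} [Group Γ] [MulAction Γ X] [Fintype J] (M : SimpleGraph X) (hM : CubicalAction Γ M)
    (x : J → X) (hx : ∀ v, ∃! j : J, ∃ g : Γ, g • x j = v) (R : FinRes Γ) (RM : ∀ j, FinRes (MirGroup Γ M (x j)))
    (i : ℕ) :
    R.betti i ≤ ∑ j, (RM j).betti i ∧
      ∑ k ∈ Finset.range (i + 1), (-1) ^ (i + k) * R.betti k ≤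
        ∑ j, ∑ k ∈ Finset.range (i + 1), (-1) ^ (i + k) * (RM j).betti k ∧
      ((∀ j k, (k + 1 = i ∨ k = i + 1) → (RM j).betti k = 0) → R.betti i = ∑ j, (RM j).betti i) :=
  ⟨(Cm.betti_strong hM x hx R RM i).1, (Cm.betti_strong hM x hx R RM i).2, fun h =>
    Cm.betti_eq_sum hM x hx R RM i (fun j k hk => h j k (Or.inl hk)) fun j => h j _ (Or.inr rfl)⟩

/-- **the reflection trick**: the group `B` acts on the graph `L` with finitely many orbits of vertices and finite stabilizers
of vertices, no vertex is adjacent to a vertex of its orbit, and the links of the vertices are full subcomplexes of flag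
homology spheres of dimension `m - 1`; `H` is isomorphic to a subgroup of finite index in the semidirect product of the
right-angled Coxeter group of `L` with `B`; then `b_i(H)` is the index times `b_i(B)` for `m + 2 < 2 * i` -/
theorem trick {V B H : Type} [Group B] [MulAction B V] [Group H] (L : SimpleGraph V)
    (hL : ∀ (b : B) u v, L.Adj (b • u) (b • v) ↔ L.Adj u v) (φ : B →* MulAut (SingerPD.Cox L))
    (hφ : ∀ b v, φ b (PresentedGroup.of v) = PresentedGroup.of (b • v))
    (hO : ∃ O : Finset V, ∀ v, ∃ o ∈ O, ∃ b : B, b • o = v) (hs : ∀ v : V, Finite (MulAction.stabilizer B v))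
    (hind : ∀ (b : B) v, ¬ L.Adj v (b • v)) (m : ℕ)
    (hlk : ∀ v, ∃ (T : Type) (K : SimpleGraph T), SingerCube.HSphere m K ∧ Nonempty (SingerPD.link L v ↪g K))
    (j : H →* SingerPD.Cox L ⋊[φ] B) (hj : Function.Injective j) (hjf : j.range.FiniteIndex)
    (RB : FinRes B) (RH : FinRes H) {i : ℕ} (hi : m + 2 < 2 * i) : RH.betti i = j.range.index * RB.betti i :=
  betti_trick L hL φ hφ hO hs hind m hlk j hj hjf RB RH hi

/-- **the Singer conjecture for the groups of the reflection trick**: the Poincare duality groups `H` of dimension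
`n = m + 1` as in `trick`; for even `n` all numbers of `H` outside of the middle degree vanish if and only if the numbers of
`B` above the middle degree vanish; for odd `n` the two middle degrees are left out -/
theorem trick_singer {n : ℕ} {V B H : Type} [Group B] [MulAction B V] [Group H] (L : SimpleGraph V)
    (hL : ∀ (b : B) u v, L.Adj (b • u) (b • v) ↔ L.Adj u v) (φ : B →* MulAut (SingerPD.Cox L))
    (hφ : ∀ b v, φ b (PresentedGroup.of v) = PresentedGroup.of (b • v))
    (hO : ∃ O : Finset V, ∀ v, ∃ o ∈ O, ∃ b : B, b • o = v) (hs : ∀ v : V, Finite (MulAction.stabilizer B v))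
    (hind : ∀ (b : B) v, ¬ L.Adj v (b • v)) (m : ℕ) (hm : m + 1 = n)
    (hlk : ∀ v, ∃ (T : Type) (K : SimpleGraph T), SingerCube.HSphere m K ∧ Nonempty (SingerPD.link L v ↪g K))
    (j : H →* SingerPD.Cox L ⋊[φ] B) (hj : Function.Injective j) (hjf : j.range.FiniteIndex)
    (hn : IsPD n H) (RB : FinRes B) (RH : FinRes H) :
    (∀ i, (n + 1 < 2 * i ∨ 2 * i + 1 < n) → RH.betti i = 0) ↔ ∀ i, n + 1 < 2 * i → RB.betti i = 0 := by
  have h1 : ∀ i, n + 1 < 2 * i → RH.betti i = j.range.index * RB.betti i := fun i hi =>
    trick L hL φ hφ hO hs hind m hlk j hj hjf RB RH (by omega)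
  have h2 : (j.range.index : ℝ) ≠ 0 := by
    exact_mod_cast hjf.index_ne_zero
  constructor
  · intro h i hi
    have h3 := h1 i hi
    rw [h i (Or.inl hi), zero_eq_mul] at h3
    exact h3.resolve_left h2
  · intro h
    have h3 : ∀ i, n + 1 < 2 * i → RH.betti i = 0 := fun i hi => by rw [h1 i hi, h i hi, mul_zero]
    rintro i (hi | hi)
    · exact h3 i hi
    · rw [Cm.B.betti_dual RH hn (show i + (n - i) = n by omega)]
      exact h3 (n - i) (by omega)

end Pool.Agent.Results.MP_984acc_gt.VertexGroups
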